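import Mathlib

/-!
# L-hitting numbers of initial segments of the 2-3 grid: `f_45 < h_45`
-/

namespace Pool.Agent.Results.MP_2eb2b4_co.FortyFive

/-- Membership in `A = {2^i 3^j}`. -/
def InA (x : ℕ) : Prop := ∃ i j : ℕ, x = 2 ^ i * 3 ^ j

/-- `a_n` (1-indexed): the `n`-th smallest element of `A`. -/
noncomputable def a (n : ℕ) : ℕ := Nat.nth InA (n - 1)

/-- `A_n = {a_1, …, a_n}`. -/
noncomputable def seg (n : ℕ) : Finset ℕ := (Finset.Icc 1 n).image a

/-- `H ⊆ A_n` meets every triple `{x, 2x, 3x} ⊆ A_n`. -/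
def Hits (n : ℕ) (H : Finset ℕ) : Prop :=
  H ⊆ seg n ∧ ∀ x : ℕ, x ∈ seg n → 2 * x ∈ seg n → 3 * x ∈ seg n →
    x ∈ H ∨ 2 * x ∈ H ∨ 3 * x ∈ H

/-- The L-hitting number `f_n`. -/
noncomputable def f (n : ℕ) : ℕ := sInf {c | ∃ H : Finset ℕ, Hits n H ∧ H.card = c}

open Classical in
/-- `B_{n,k} = {2^i 3^j ∈ A_n : i - j ≡ k (mod 3)}`. -/
noncomputable def B (n k : ℕ) : Finset ℕ :=
  (seg n).filter (fun x => ∃ i j : ℕ, x = 2 ^ i * 3 ^ j ∧ (i : ℤ) - (j : ℤ) ≡ (k : ℤ) [ZMOD 3])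

open Classical in
/-- The powers of two `2^i ∈ A_n` with `i ≥ 1`, `i ≡ k (mod 3)` and `2^(i-1) 3 ∉ A_n`. -/
noncomputable def Bt (n k : ℕ) : Finset ℕ :=
  (seg n).filter (fun x => ∃ i : ℕ, 1 ≤ i ∧ x = 2 ^ i ∧ i ≡ k [MOD 3] ∧ 2 ^ (i - 1) * 3 ∉ seg n)

/-- `h_n = min_k (|B_{n,k}| - |B~_{n,k}|)`. -/
noncomputable def h (n : ℕ) : ℤ :=
  min (min (((B n 0).card : ℤ) - (Bt n 0).card) (((B n 1).card : ℤ) - (Bt n 1).card))
    (((B n 2).card : ℤ) - (Bt n 2).card)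

/-- Exponent pairs of the elements `≤ 1536`. -/
def P : Finset (ℕ × ℕ) := ((Finset.range 11) ×ˢ (Finset.range 7)).filter
  (fun p => 2 ^ p.1 * 3 ^ p.2 ≤ 1536)

/-- The value. -/
def e (p : ℕ × ℕ) : ℕ := 2 ^ p.1 * 3 ^ p.2

theorem exp_unique {i j k l : ℕ} (hh : 2 ^ i * 3 ^ j = 2 ^ k * 3 ^ l) : i = k ∧ j = l := by
  have key : ∀ i j : ℕ, padicValNat 2 (2 ^ i * 3 ^ j) = i ∧ padicValNat 3 (2 ^ i * 3 ^ j) = j := by
    intro i j
    have h1 : padicValNat 2 (3 ^ j) = 0 := by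
      apply padicValNat.eq_zero_of_not_dvd
      intro hd
      have := (Nat.prime_two).dvd_of_dvd_pow hd
      omega
    have h2 : padicValNat 3 (2 ^ i) = 0 := by
      apply padicValNat.eq_zero_of_not_dvd
      intro hd
      have := (Nat.prime_three).dvd_of_dvd_pow hd
      omega
    constructor
    · rw [padicValNat.mul (by positivity) (by positivity), padicValNat.prime_pow, h1]; simp
    · rw [padicValNat.mul (by positivity) (by positivity), padicValNat.prime_pow, h2]; simp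
  have h2 : padicValNat 2 (2 ^ i * 3 ^ j) = padicValNat 2 (2 ^ k * 3 ^ l) := by rw [hh]
  have h3 : padicValNat 3 (2 ^ i * 3 ^ j) = padicValNat 3 (2 ^ k * 3 ^ l) := by rw [hh]
  rw [(key i j).1, (key k l).1] at h2
  rw [(key i j).2, (key k l).2] at h3
  exact ⟨h2, h3⟩

theorem e_inj : Function.Injective e := by
  rintro ⟨i, j⟩ ⟨k, l⟩ hh
  obtain ⟨h1, h2⟩ := exp_unique hh
  exact Prod.ext h1 h2

theorem P_card : P.card = 45 := by decide +kernel

theorem InA_infinite : (Set.ofPred InA).Infinite := by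
  apply Set.infinite_of_injective_forall_mem (f := fun n : ℕ => 2 ^ n)
  · exact Nat.pow_right_injective (le_refl 2)
  · intro n
    exact ⟨n, 0, by simp⟩

theorem mem_image_P (x : ℕ) : x ∈ P.image e ↔ InA x ∧ x < 1537 := by
  rw [Finset.mem_image]
  constructor
  · rintro ⟨⟨i, j⟩, hp, rfl⟩
    simp only [P, Finset.mem_filter] at hp
    exact ⟨⟨i, j, rfl⟩, Nat.lt_succ_of_le hp.2⟩
  · rintro ⟨⟨i, j, rfl⟩, hlt⟩
    refine ⟨(i, j), ?_, rfl⟩
    simp only [P, Finset.mem_filter, Finset.mem_product, Finset.mem_range]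
    have h2 : 1 ≤ 2 ^ i := Nat.one_le_two_pow
    have h3 : 1 ≤ 3 ^ j := Nat.one_le_pow _ _ (by norm_num)
    refine ⟨⟨?_, ?_⟩, by omega⟩
    · by_contra hc
      have : 2 ^ 11 ≤ 2 ^ i := Nat.pow_le_pow_right (by norm_num) (by omega)
      nlinarith
    · by_contra hc
      have : 3 ^ 7 ≤ 3 ^ j := Nat.pow_le_pow_right (by norm_num) (by omega)
      nlinarith

theorem count_eq [DecidablePred InA] : Nat.count InA 1537 = 45 := by
  have hset : (Finset.range 1537).filter InA = P.image e := by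
    ext x
    rw [Finset.mem_filter, Finset.mem_range, mem_image_P, and_comm]
  rw [Nat.count_eq_card_filter_range, hset, Finset.card_image_of_injective P e_inj, P_card]

theorem seg_eq : seg 45 = P.image e := by
  classical
  ext x
  rw [mem_image_P]
  simp only [seg, Finset.mem_image, Finset.mem_Icc, a]
  constructor
  · rintro ⟨n, ⟨h1, h2⟩, rfl⟩
    refine ⟨Nat.nth_mem_of_infinite InA_infinite _, ?_⟩
    apply Nat.nth_lt_of_lt_count
    rw [count_eq]
    omega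
  · rintro ⟨hx, hlt⟩
    have h1 : Nat.count InA x < Nat.count InA 1537 := Nat.count_strict_mono hx hlt
    rw [count_eq] at h1
    refine ⟨Nat.count InA x + 1, ⟨by omega, by omega⟩, ?_⟩
    rw [Nat.add_sub_cancel]
    exact Nat.nth_count hx

/-- The hitting set of size 14. -/
def H14 : Finset ℕ := {3, 4, 18, 24, 32, 81, 108, 144, 192, 384, 486, 512, 648, 864}

/-- The elements of `A_45` as an explicit computable finset. -/
def A45 : Finset ℕ := P.image e

theorem H14_hits : Hits 45 H14 := by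
  unfold Hits
  rw [seg_eq]
  constructor
  · show H14 ⊆ A45
    decide +kernel
  · intro x hx h2 h3
    have key : ∀ x ∈ A45, 2 * x ∈ A45 → 3 * x ∈ A45 →
        x ∈ H14 ∨ 2 * x ∈ H14 ∨ 3 * x ∈ H14 := by
      decide +kernel
    exact key x hx h2 h3

theorem f_le : f 45 ≤ 14 := by
  apply Nat.sInf_le
  exact ⟨H14, H14_hits, by decide +kernel⟩

/-- Computable version of `B`. -/
def Bc (k : ℕ) : Finset ℕ := (P.filter (fun p => (p.1 + 2 * p.2) % 3 = k)).image e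

/-- Computable version of `Bt`. -/
def Btc (k : ℕ) : Finset ℕ :=
  (P.filter (fun p => 1 ≤ p.1 ∧ p.2 = 0 ∧ p.1 % 3 = k ∧ 2 ^ (p.1 - 1) * 3 ∉ A45)).image e

theorem B_eq (k : ℕ) (hk : k < 3) : B 45 k = Bc k := by
  ext x
  simp only [B, Bc, Finset.mem_filter, seg_eq, Finset.mem_image]
  constructor
  · rintro ⟨⟨⟨i, j⟩, hp, rfl⟩, i', j', hx, hmod⟩
    obtain ⟨rfl, rfl⟩ := exp_unique hx
    refine ⟨(i, j), ⟨hp, ?_⟩, rfl⟩
    have := hmod
    unfold Int.ModEq at this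
    show (i + 2 * j) % 3 = k
    omega
  · rintro ⟨⟨i, j⟩, ⟨hp, hmod⟩, rfl⟩
    refine ⟨⟨(i, j), hp, rfl⟩, i, j, rfl, ?_⟩
    have : (i + 2 * j) % 3 = k := hmod
    unfold Int.ModEq
    omega

theorem Bt_eq (k : ℕ) (hk : k < 3) : Bt 45 k = Btc k := by
  ext x
  simp only [Bt, Btc, Finset.mem_filter, seg_eq, Finset.mem_image]
  constructor
  · rintro ⟨⟨⟨i, j⟩, hp, rfl⟩, i', hi', hx, hmod, hnot⟩
    have hx' : 2 ^ i * 3 ^ j = 2 ^ i' * 3 ^ 0 := by
      have : e (i, j) = 2 ^ i * 3 ^ j := rfl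
      rw [← this, hx]; simp
    obtain ⟨rfl, rfl⟩ := exp_unique hx'
    refine ⟨(i, 0), ⟨hp, hi', rfl, ?_, ?_⟩, rfl⟩
    · have h1 : i % 3 = k % 3 := hmod
      show i % 3 = k
      omega
    · intro hmem
      exact hnot (Finset.mem_image.mp hmem)
  · rintro ⟨⟨i, j⟩, ⟨hp, hi, hj, hmod, hnot⟩, rfl⟩
    have hj' : j = 0 := hj
    subst hj'
    refine ⟨⟨(i, 0), hp, rfl⟩, i, hi, by simp [e], ?_, ?_⟩
    · have h1 : i % 3 = k := hmod
      show i % 3 = k % 3
      omega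
    · intro hmem
      exact hnot (Finset.mem_image.mpr hmem)

theorem h_eq : h 45 = 15 := by
  unfold h
  rw [B_eq 0 (by norm_num), B_eq 1 (by norm_num), B_eq 2 (by norm_num),
    Bt_eq 0 (by norm_num), Bt_eq 1 (by norm_num), Bt_eq 2 (by norm_num)]
  have h0 : (Bc 0).card = 15 + (Btc 0).card := by decide +kernel
  have h1 : (Bc 1).card = 15 + (Btc 1).card := by decide +kernel
  have h2 : (Bc 2).card = 15 + (Btc 2).card := by decide +kernel
  rw [h0, h1, h2]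
  push_cast
  simp

/-- The conjecture `f_n = h_n` fails: `f_45 ≤ 14 < 15 = h_45`. -/
theorem result :
    (¬ ∀ n : ℕ, 1 ≤ n → (f n : ℤ) = h n) ∧ f 45 ≤ 14 ∧ h 45 = 15 := by
  refine ⟨?_, f_le, h_eq⟩
  intro hall
  have h1 := hall 45 (by norm_num)
  rw [h_eq] at h1
  have h2 := f_le
  omega

end Pool.Agent.Results.MP_2eb2b4_co.FortyFive
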